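import Mathlib
import Pool.Agent.Lib.Helper15.OddGirth
import Pool.Agent.Lib.Helper15.PolygonMain
import Pool.Agent.Lib.PNT.PNT

/-!
# Every `(k;8)`-cage is bipartite for all sufficiently large `k`

* `oddGirth_mul_le`: a graph of minimum degree at least `k` and girth at least `8` which is not
  bipartite has at least `9 / 8` times the Moore bound many vertices.
* `exists_eight_graph`: `k`-regular graphs of girth `8` with `2 * k * q ^ 2` vertices for every
  odd prime power `q ≥ k`.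
* The prime number theorem (proved in `Pool.Agent.Lib.PNT`) gives a prime `q` in
  `(k, (1 + 1 / 50) * k]` for all large `k`.
-/

namespace Pool.Agent.Results.MP_659429_co.GirthEightCages

open SimpleGraph Finset Filter
open Pool.Agent.Lib.Helper15

/-- **Every `(k;8)`-cage is bipartite if `k` is sufficiently large.** -/
theorem result :
    ∃ K : ℕ, ∀ k : ℕ, K ≤ k → ∀ (n : ℕ) (G : SimpleGraph (Fin n)) [DecidableRel G.Adj],
      G.IsRegularOfDegree k →
      G.egirth = 8 →
      (∀ (m : ℕ) (H : SimpleGraph (Fin m)) [DecidableRel H.Adj],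
          H.IsRegularOfDegree k → H.egirth = 8 → n ≤ m) →
      G.Colorable 2 := by
  obtain ⟨K, hK⟩ := eventually_atTop.1
    (Pool.Agent.Lib.PNT.eventually_exists_prime_nat (show (0 : ℝ) < 1 / 50 by norm_num))
  refine ⟨max K 100, fun k hk n G _ hreg hg hmin => ?_⟩
  have hk100 : 100 ≤ k := (le_max_right _ _).trans hk
  obtain ⟨q, hq, hkq, hqk⟩ := hK k ((le_max_left _ _).trans hk)
  have := Fact.mk hq
  have h2 : (2 : ZMod q) ≠ 0 := by
    intro h
    have h3 : ((2 : ℕ) : ZMod q) = 0 := by exact_mod_cast h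
    rw [ZMod.natCast_eq_zero_iff] at h3
    have := Nat.le_of_dvd (by norm_num) h3
    omega
  obtain ⟨H, hdec, h3, h4⟩ := exists_eight_graph (ZMod q) h2 k (by omega)
    (by rw [ZMod.card]; exact hkq.le)
  have h5 := hmin _ H h3 h4
  rw [ZMod.card] at h5
  by_contra hnb
  have hg' : ∀ (v : Fin n) (c : G.Walk v v), c.IsCycle → 2 * 4 ≤ c.length := by
    intro v c hc
    have := egirth_le_length hc
    rw [hg] at this
    exact_mod_cast this
  have hL : ∀ (v : Fin n) (c : G.Walk v v), c.IsCycle → Odd c.length → 9 ≤ c.length := by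
    intro v c hc hodd
    have := hg' v c hc
    obtain ⟨r, hr⟩ := hodd
    omega
  have key := oddGirth_mul_le (k := k) (by norm_num) (fun v => (hreg v).ge) hg' hL hnb
  rw [Fintype.card_fin] at key
  simp only [sum_range_succ, range_zero, sum_empty, pow_zero, pow_one, zero_add] at key
  obtain ⟨j, rfl⟩ : ∃ j, k = j + 1 := ⟨k - 1, by omega⟩
  rw [Nat.add_sub_cancel] at key
  have key2 : 9 * (1 + j + j ^ 2 + j ^ 3) ≤ 8 * ((j + 1) * q ^ 2) := by
    have := Nat.mul_le_mul_left 4 h5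
    linarith
  have key3 : (9 : ℝ) * (1 + j + j ^ 2 + j ^ 3) ≤ 8 * ((j + 1) * q ^ 2) := by exact_mod_cast key2
  have hqk' : (q : ℝ) ≤ (1 + 1 / 50) * (j + 1) := by exact_mod_cast hqk
  have hj : (99 : ℝ) ≤ j := by
    have : 99 ≤ j := by omega
    exact_mod_cast this
  have hq2 : (q : ℝ) ^ 2 ≤ ((1 + 1 / 50) * (j + 1)) ^ 2 := by
    apply pow_le_pow_left₀ (by positivity) hqk'
  have h6 : 8 * (((j : ℝ) + 1) * q ^ 2) ≤ 8 * ((j + 1) * ((1 + 1 / 50) * (j + 1)) ^ 2) := by
    gcongr
  have h7 : (9 : ℝ) * (1 + j + j ^ 2 + j ^ 3) ≤ 8 * ((j + 1) * ((1 + 1 / 50) * (j + 1)) ^ 2) :=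
    key3.trans h6
  nlinarith [mul_nonneg (sub_nonneg.2 hj) (sub_nonneg.2 hj),
    mul_nonneg (mul_nonneg (sub_nonneg.2 hj) (sub_nonneg.2 hj)) (sub_nonneg.2 hj)]

end Pool.Agent.Results.MP_659429_co.GirthEightCages
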