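import Mathlib
import Pool.Agent.Lib.Helper15.OddGirth
import Pool.Agent.Lib.Helper15.IncidenceGraph
import Pool.Agent.Lib.Helper15.PrimeGap76

/-!
# Every `(k;6)`-cage is bipartite

The proof has three parts.

* `oddGirth_mul_le`: a graph of minimum degree at least `k`, girth at least `6` which is not
  bipartite has at least `7 / 6` times the Moore bound many vertices.
* `good_of_affine`, `good_of_plane`: `k`-regular graphs of girth `6` with `2 * k * q` vertices for
  every prime power `q ≥ k`, and with `2 * (q ^ 2 + q + 1)` vertices for `k = q + 1`.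
* `exists_prime_seven_sixths`: for every `N ≥ 25` there is a prime `p` with `N ≤ p ≤ 7 * N / 6`.
-/

namespace Pool.Agent.Results.MP_659429_co.GirthSixCages

open SimpleGraph Finset
open Pool.Agent.Lib.Helper15

/-- There is a `k`-regular graph of girth `6` with fewer than `7 / 6` times the Moore bound many
vertices. -/
def Good (k : ℕ) : Prop :=
  ∃ (N : ℕ) (H : SimpleGraph (Fin N)) (_ : DecidableRel H.Adj),
    H.IsRegularOfDegree k ∧ H.egirth = 6 ∧ 3 * N < 7 * (1 + (k - 1) + (k - 1) ^ 2)

theorem good_of_affine (p r k : ℕ) (hp : p.Prime) (hr : r ≠ 0) (h3 : 3 ≤ k) (hk : k ≤ p ^ r)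
    (h : 6 * (k * p ^ r) < 7 * (1 + (k - 1) + (k - 1) ^ 2)) : Good k := by
  have := Fact.mk hp
  let : Fintype (GaloisField p r) := Fintype.ofFinite _
  have hcard : Fintype.card (GaloisField p r) = p ^ r := by
    rw [← Nat.card_eq_fintype_card, GaloisField.card p r hr]
  obtain ⟨H, hdec, h1, h2⟩ := exists_affine_graph (GaloisField p r) k h3 (by rw [hcard]; exact hk)
  refine ⟨_, H, hdec, h1, h2, ?_⟩
  rw [hcard]
  linarith

theorem good_of_plane (p r : ℕ) (hp : p.Prime) (hr : r ≠ 0) : Good (p ^ r + 1) := by
  have := Fact.mk hp
  let : Fintype (GaloisField p r) := Fintype.ofFinite _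
  have hcard : Fintype.card (GaloisField p r) = p ^ r := by
    rw [← Nat.card_eq_fintype_card, GaloisField.card p r hr]
  obtain ⟨H, hdec, h1, h2⟩ := exists_plane_graph (GaloisField p r)
  have h1' : H.IsRegularOfDegree (p ^ r + 1) := by rw [← hcard]; exact h1
  refine ⟨_, H, hdec, h1', h2, ?_⟩
  rw [hcard, Nat.add_sub_cancel]
  have : 0 ≤ (p ^ r) ^ 2 := Nat.zero_le _
  nlinarith

theorem good_two_aux1 : ∀ p : Fin 3, #{l : Fin 3 | p ≠ l} = 2 := by decide

theorem good_two_aux2 : ∀ l : Fin 3, #{p : Fin 3 | p ≠ l} = 2 := by decide

theorem good_two : Good 2 := by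
  classical
  have hI : ∀ p p' l l' : Fin 3, p ≠ l → p' ≠ l → p ≠ l' → p' ≠ l' → p = p' ∨ l = l' := by decide
  have h1 : (incGraph (fun p l : Fin 3 => p ≠ l)).egirth = 6 :=
    incGraph_egirth _ hI (p₁ := 0) (p₂ := 1) (p₃ := 2) (l₁ := 0) (l₂ := 1) (l₃ := 2)
      (by decide) (by decide) (by decide) (by decide) (by decide) (by decide) (by decide)
      (by decide) (by decide) (by decide) (by decide) (by decide)
  have h2 : (incGraph (fun p l : Fin 3 => p ≠ l)).IsRegularOfDegree 2 := by
    apply incGraph_regular
    · intro p
      rw [← good_two_aux1 p]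
      exact congrArg card (filter_congr_decidable _ _ _)
    · intro p
      rw [← good_two_aux2 p]
      exact congrArg card (filter_congr_decidable _ _ _)
  obtain ⟨H, hdec, h3, h4⟩ := exists_fin_graph _ h2 h1 rfl
  refine ⟨_, H, hdec, h3, h4, ?_⟩
  simp

theorem good_all (k : ℕ) (hk : 2 ≤ k) : Good k := by
  by_cases h26 : 26 ≤ k
  · obtain ⟨p, hp, h1, h2⟩ := exists_prime_seven_sixths (N := k - 1) (by omega)
    by_cases h : p = k - 1
    · have := good_of_plane p 1 hp one_ne_zero
      rw [pow_one, h, Nat.sub_add_cancel (by omega)] at this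
      exact this
    · apply good_of_affine p 1 k hp one_ne_zero (by omega) (by rw [pow_one]; omega)
      rw [pow_one]
      obtain ⟨j, rfl⟩ : ∃ j, k = j + 1 := ⟨k - 1, by omega⟩
      rw [Nat.add_sub_cancel] at h2 ⊢
      nlinarith
  · push Not at h26
    interval_cases k
    · exact good_two
    · exact good_of_plane 2 1 (by norm_num) (by norm_num)
    · exact good_of_plane 3 1 (by norm_num) (by norm_num)
    · exact good_of_plane 2 2 (by norm_num) (by norm_num)
    · exact good_of_plane 5 1 (by norm_num) (by norm_num)
    · exact good_of_affine 7 1 7 (by norm_num) (by norm_num) (by norm_num) (by norm_num)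
        (by norm_num)
    · exact good_of_plane 7 1 (by norm_num) (by norm_num)
    · exact good_of_plane 2 3 (by norm_num) (by norm_num)
    · exact good_of_plane 3 2 (by norm_num) (by norm_num)
    · exact good_of_affine 11 1 11 (by norm_num) (by norm_num) (by norm_num) (by norm_num)
        (by norm_num)
    · exact good_of_plane 11 1 (by norm_num) (by norm_num)
    · exact good_of_affine 13 1 13 (by norm_num) (by norm_num) (by norm_num) (by norm_num)
        (by norm_num)
    · exact good_of_plane 13 1 (by norm_num) (by norm_num)
    · exact good_of_affine 2 4 15 (by norm_num) (by norm_num) (by norm_num) (by norm_num)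
        (by norm_num)
    · exact good_of_affine 17 1 16 (by norm_num) (by norm_num) (by norm_num) (by norm_num)
        (by norm_num)
    · exact good_of_affine 17 1 17 (by norm_num) (by norm_num) (by norm_num) (by norm_num)
        (by norm_num)
    · exact good_of_plane 17 1 (by norm_num) (by norm_num)
    · exact good_of_affine 19 1 19 (by norm_num) (by norm_num) (by norm_num) (by norm_num)
        (by norm_num)
    · exact good_of_plane 19 1 (by norm_num) (by norm_num)
    · exact good_of_affine 23 1 21 (by norm_num) (by norm_num) (by norm_num) (by norm_num)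
        (by norm_num)
    · exact good_of_affine 23 1 22 (by norm_num) (by norm_num) (by norm_num) (by norm_num)
        (by norm_num)
    · exact good_of_affine 23 1 23 (by norm_num) (by norm_num) (by norm_num) (by norm_num)
        (by norm_num)
    · exact good_of_plane 23 1 (by norm_num) (by norm_num)
    · exact good_of_affine 5 2 25 (by norm_num) (by norm_num) (by norm_num) (by norm_num)
        (by norm_num)

/-- **Every `(k;6)`-cage is bipartite**: for every `k`, every finite `k`-regular graph of girth
`6` that has the fewest vertices among all finite `k`-regular graphs of girth `6` is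
`2`-colourable. -/
theorem result :
    ∀ (k n : ℕ) (G : SimpleGraph (Fin n)) [DecidableRel G.Adj],
      G.IsRegularOfDegree k →
      G.egirth = 6 →
      (∀ (m : ℕ) (H : SimpleGraph (Fin m)) [DecidableRel H.Adj],
          H.IsRegularOfDegree k → H.egirth = 6 → n ≤ m) →
      G.Colorable 2 := by
  intro k n G _ hk hg hmin
  by_contra hnb
  have hg' : ∀ (v : Fin n) (c : G.Walk v v), c.IsCycle → 2 * 3 ≤ c.length := by
    intro v c hc
    have := egirth_le_length hc
    rw [hg] at this
    exact_mod_cast this
  have hL : ∀ (v : Fin n) (c : G.Walk v v), c.IsCycle → Odd c.length → 7 ≤ c.length := by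
    intro v c hc hodd
    have := hg' v c hc
    obtain ⟨r, hr⟩ := hodd
    omega
  have key := oddGirth_mul_le (k := k) (by norm_num) (fun v => (hk v).ge) hg' hL hnb
  have hk2 : 2 ≤ k := by
    by_contra h
    -- a cycle gives a vertex of degree at least two
    have hac : ¬ G.IsAcyclic := by
      rw [← egirth_eq_top, hg]; decide
    obtain ⟨a, w, hw, -⟩ := exists_egirth_eq_length.2 hac
    have h2 : 2 ≤ G.degree a := by
      rw [← card_neighborFinset_eq_degree]
      have hne := hw.snd_ne_penultimate
      have hs : ({w.snd, w.penultimate} : Finset (Fin n)) ⊆ G.neighborFinset a := by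
        intro x hx
        simp only [mem_insert, mem_singleton] at hx
        rw [mem_neighborFinset]
        rcases hx with rfl | rfl
        · exact w.adj_snd hw.not_nil
        · exact (w.adj_penultimate hw.not_nil).symm
      calc 2 = #({w.snd, w.penultimate} : Finset (Fin n)) := (card_pair hne).symm
        _ ≤ _ := card_le_card hs
    rw [hk a] at h2
    exact h h2
  obtain ⟨N, H, hdec, h1, h2, h3⟩ := good_all k hk2
  have h4 := hmin N H h1 h2
  rw [Fintype.card_fin] at key
  simp only [sum_range_succ, range_zero, sum_empty, pow_zero, pow_one, zero_add] at key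
  omega

end Pool.Agent.Results.MP_659429_co.GirthSixCages
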