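import Mathlib
import Pool.Agent.Lib.Helper15.OddGirth
import Pool.Agent.Lib.Helper15.PolygonMain
import Pool.Agent.Lib.PNT.PNT

/-!
# Every `(k;12)`-cage is bipartite for all sufficiently large `k`

* `oddGirth_mul_le`: a graph of minimum degree at least `k` and girth at least `12` which is not
  bipartite has at least `13 / 12` times the Moore bound many vertices.
* `exists_twelve_graph`: `k`-regular graphs of girth `12` with `2 * k * q ^ 4` vertices for every
  odd prime power `q ≥ k`.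
* The prime number theorem (proved in `Pool.Agent.Lib.PNT`) gives a prime `q` in
  `(k, (1 + 1 / 100) * k]` for all large `k`.
-/

namespace Pool.Agent.Results.MP_659429_co.GirthTwelveCages

open SimpleGraph Finset Filter
open Pool.Agent.Lib.Helper15

/-- **Every `(k;12)`-cage is bipartite if `k` is sufficiently large.** -/
theorem result :
    ∃ K : ℕ, ∀ k : ℕ, K ≤ k → ∀ (n : ℕ) (G : SimpleGraph (Fin n)) [DecidableRel G.Adj],
      G.IsRegularOfDegree k →
      G.egirth = 12 →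
      (∀ (m : ℕ) (H : SimpleGraph (Fin m)) [DecidableRel H.Adj],
          H.IsRegularOfDegree k → H.egirth = 12 → n ≤ m) →
      G.Colorable 2 := by
  obtain ⟨K, hK⟩ := eventually_atTop.1
    (Pool.Agent.Lib.PNT.eventually_exists_prime_nat (show (0 : ℝ) < 1 / 100 by norm_num))
  refine ⟨max K 1000, fun k hk n G _ hreg hg hmin => ?_⟩
  have hk100 : 1000 ≤ k := (le_max_right _ _).trans hk
  obtain ⟨q, hq, hkq, hqk⟩ := hK k ((le_max_left _ _).trans hk)
  have := Fact.mk hq
  have h2 : (2 : ZMod q) ≠ 0 := by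
    intro h
    have h3 : ((2 : ℕ) : ZMod q) = 0 := by exact_mod_cast h
    rw [ZMod.natCast_eq_zero_iff] at h3
    have := Nat.le_of_dvd (by norm_num) h3
    omega
  obtain ⟨H, hdec, h3, h4⟩ := exists_twelve_graph (ZMod q) h2 k (by omega)
    (by rw [ZMod.card]; exact hkq.le)
  have h5 := hmin _ H h3 h4
  rw [ZMod.card] at h5
  by_contra hnb
  have hg' : ∀ (v : Fin n) (c : G.Walk v v), c.IsCycle → 2 * 6 ≤ c.length := by
    intro v c hc
    have := egirth_le_length hc
    rw [hg] at this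
    exact_mod_cast this
  have hL : ∀ (v : Fin n) (c : G.Walk v v), c.IsCycle → Odd c.length → 13 ≤ c.length := by
    intro v c hc hodd
    have := hg' v c hc
    obtain ⟨r, hr⟩ := hodd
    omega
  have key := oddGirth_mul_le (k := k) (by norm_num) (fun v => (hreg v).ge) hg' hL hnb
  rw [Fintype.card_fin] at key
  simp only [sum_range_succ, range_zero, sum_empty, pow_zero, pow_one, zero_add] at key
  obtain ⟨j, rfl⟩ : ∃ j, k = j + 1 := ⟨k - 1, by omega⟩
  rw [Nat.add_sub_cancel] at key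
  have key2 : 13 * j ^ 5 ≤ 12 * ((j + 1) * q ^ 4) := by
    have := Nat.mul_le_mul_left 6 h5
    have h0 : 0 ≤ 13 * (1 + j + j ^ 2 + j ^ 3 + j ^ 4) := Nat.zero_le _
    linarith
  have key3 : (13 : ℝ) * j ^ 5 ≤ 12 * ((j + 1) * q ^ 4) := by exact_mod_cast key2
  have hqk' : (q : ℝ) ≤ (1 + 1 / 100) * (j + 1) := by exact_mod_cast hqk
  have hj : (999 : ℝ) ≤ j := by
    have : 999 ≤ j := by omega
    exact_mod_cast this
  have hj1 : (j : ℝ) + 1 ≤ (1 + 1 / 999) * j := by linarith
  have hj0 : (0 : ℝ) < j := by linarith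
  have hq1 : (q : ℝ) ≤ (1 + 1 / 100) * ((1 + 1 / 999) * j) :=
    hqk'.trans (mul_le_mul_of_nonneg_left hj1 (by norm_num))
  have hq2 : (q : ℝ) ^ 4 ≤ ((1 + 1 / 100) * ((1 + 1 / 999) * j)) ^ 4 :=
    pow_le_pow_left₀ (by positivity) hq1 4
  have h6 : 12 * (((j : ℝ) + 1) * q ^ 4)
      ≤ 12 * (((1 + 1 / 999) * j) * ((1 + 1 / 100) * ((1 + 1 / 999) * j)) ^ 4) := by
    gcongr
  have h7 := key3.trans h6
  have h8 : (13 : ℝ) * j ^ 5 ≤ 12 * ((1 + 1 / 999) ^ 5 * (1 + 1 / 100) ^ 4) * j ^ 5 := by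
    calc (13 : ℝ) * j ^ 5
        ≤ 12 * (((1 + 1 / 999) * j) * ((1 + 1 / 100) * ((1 + 1 / 999) * j)) ^ 4) := h7
      _ = _ := by ring
  have h9 : (13 : ℝ) ≤ 12 * ((1 + 1 / 999) ^ 5 * (1 + 1 / 100) ^ 4) :=
    le_of_mul_le_mul_right h8 (by positivity)
  norm_num at h9

end Pool.Agent.Results.MP_659429_co.GirthTwelveCages
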