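import Mathlib
import Pool.Agent.Lib.Helper15.OddGirth

/-!
# Odd girth and the Moore bound for even girth

A non-bipartite graph of minimum degree at least `k` and girth at least `g = 2 * m` all of whose
odd cycles have length at least `L` has at least `(L / g) * n₀(k; g)` vertices, where
`n₀(k; g) = 2 * ∑ i ∈ range m, (k - 1) ^ i` is the Moore bound.  As `L = g + 1` is always allowed
when the girth is at least `g`, every `k`-regular graph of even girth `g` with fewer than
`(1 + 1 / g) * n₀(k; g)` vertices is bipartite.
-/

namespace Pool.Agent.Results.MP_659429_co.OddGirthBound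

open SimpleGraph Finset
open Pool.Agent.Lib.Helper15

/-- Let `G` be a finite graph which is not bipartite, has minimum degree at least `k` and girth at
least `2 * m`, and all of whose odd cycles have length at least `L`.  Then
`L * n₀ ≤ (2 * m) * |V(G)|`, where `n₀ = 2 * ∑ i ∈ range m, (k - 1) ^ i` is the Moore bound for
degree `k` and girth `2 * m`. -/
theorem result {V : Type*} [Fintype V] (G : SimpleGraph V) [DecidableRel G.Adj] (k m L : ℕ)
    (hdeg : ∀ v, k ≤ G.degree v)
    (hgirth : ((2 * m : ℕ) : ℕ∞) ≤ G.egirth)
    (hodd : ∀ (v : V) (c : G.Walk v v), c.IsCycle → Odd c.length → L ≤ c.length)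
    (hnb : ¬ G.Colorable 2) :
    L * (2 * ∑ i ∈ range m, (k - 1) ^ i) ≤ (2 * m) * Fintype.card V := by
  rcases Nat.eq_zero_or_pos m with rfl | hm
  · simp
  · have hg : ∀ (v : V) (c : G.Walk v v), c.IsCycle → 2 * m ≤ c.length := by
      intro v c hc
      have := hgirth.trans (egirth_le_length hc)
      exact_mod_cast this
    have := oddGirth_mul_le hm hdeg hg hodd hnb
    calc L * (2 * ∑ i ∈ range m, (k - 1) ^ i) = 2 * (L * ∑ i ∈ range m, (k - 1) ^ i) := by ring
      _ ≤ 2 * (m * Fintype.card V) := Nat.mul_le_mul_left 2 this
      _ = (2 * m) * Fintype.card V := by ring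

end Pool.Agent.Results.MP_659429_co.OddGirthBound
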